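import Pool.Agent.H61.CM4.TargetsB

/-!
# Row B1_DUB of the board `cm4_modules`: the dual basis of a lattice
-/

set_option autoImplicit false

open MeasureTheory Set Filter NumberField NumberField.InfinitePlace NumberField.Units
  NumberField.Units.dirichletUnitTheorem Pool.Agent.H65.CM4 Pool.Agent.H25.HK Pool.Agent.H61.CM4
open scoped Real

namespace Pool.Agent.H21.CM4B

section Trace

variable {k : Type} [Field k] [NumberField k] [IsTotallyReal k]

theorem sum_rv (x : k) : ∑ v : Pl k, rv v x = ((Algebra.trace ℚ k x : ℚ) : ℝ) := by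
  classical
  have h := trace_eq_sum_embeddings (K := ℚ) (L := k) ℂ (x := x)
  have e1 : (∑ σ : k →ₐ[ℚ] ℂ, σ x) = ∑ φ : k →+* ℂ, φ x :=
    (Fintype.sum_equiv (RingHom.equivRatAlgHom k ℂ) (fun f => f x) (fun φ => φ x)
      (fun f => by simp [RingHom.equivRatAlgHom_apply])).symm
  have e2 : (∑ v : Pl k, ((rv v x : ℝ) : ℂ)) = ∑ φ : k →+* ℂ, φ x := by
    refine Fintype.sum_bijective (fun v : Pl k => embedding v) ⟨?_, ?_⟩ _ _ ?_
    · intro v w hvw
      have h2 : embedding v = embedding w := hvw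
      rw [← mk_embedding v, ← mk_embedding w, h2]
    · intro φ
      exact ⟨InfinitePlace.mk φ, embedding_mk_eq_of_isReal (IsTotallyReal.complexEmbedding_isReal φ)⟩
    · intro v
      exact embedding_of_isReal_apply (IsTotallyReal.isReal v) x
  have e3 : ((∑ v : Pl k, rv v x : ℝ) : ℂ) = (((Algebra.trace ℚ k x : ℚ) : ℝ) : ℂ) := by
    rw [Complex.ofReal_sum, e2, ← e1, ← h]
    simp
  exact_mod_cast e3

theorem tr_sq (x : k) (h : Algebra.trace ℚ k (x * x) = 0) : x = 0 := by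
  have h1 := sum_rv (x * x)
  rw [h, Rat.cast_zero] at h1
  simp only [map_mul] at h1
  obtain ⟨v⟩ : Nonempty (Pl k) := inferInstance
  have h2 := (Finset.sum_eq_zero_iff_of_nonneg (fun v _ => mul_self_nonneg (rv v x))).1 h1 v
    (Finset.mem_univ v)
  have h3 : rv v x = 0 := mul_self_eq_zero.1 h2
  exact (map_eq_zero (rv v)).1 h3

theorem frac (x : k) : ∃ p q : 𝓞 k, q ≠ 0 ∧ (q : k) * x = (p : k) := by
  obtain ⟨p, q, hq, h⟩ := IsFractionRing.div_surjective (A := 𝓞 k) x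
  have hq0 : q ≠ 0 := nonZeroDivisors.ne_zero hq
  refine ⟨p, q, hq0, ?_⟩
  have hq1 : (q : k) ≠ 0 := by
    intro h5
    exact hq0 (by exact_mod_cast h5)
  rw [← h]
  change (q : k) * ((p : k) / (q : k)) = (p : k)
  field_simp

theorem tr_zero (w : k) (h : ∀ x : 𝓞 k, Algebra.trace ℚ k (w * (x : k)) = 0) : w = 0 := by
  obtain ⟨p, q, hq, hpq⟩ := frac w
  have h1 := h (q * p)
  have h2 : w * ((q * p : 𝓞 k) : k) = (p : k) * (p : k) := by
    have e : ((q * p : 𝓞 k) : k) = (q : k) * (p : k) := by push_cast; rfl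
    rw [e, ← hpq]
    ring
  rw [h2] at h1
  have h3 := tr_sq _ h1
  have hq1 : (q : k) ≠ 0 := by
    intro h5
    exact hq (by exact_mod_cast h5)
  rw [h3] at hpq
  exact (mul_eq_zero.1 hpq).resolve_left hq1

omit [IsTotallyReal k] in
/-- the discriminant is in the different -/
theorem dual_int (w : k) (h : ∀ x : 𝓞 k, ∃ n : ℤ, Algebra.trace ℚ k (w * (x : k)) = n) :
    ∃ y : 𝓞 k, (y : k) = (dk k : k) * w := by
  have h1 : ((differentIdeal ℤ (𝓞 k) : Ideal (𝓞 k)) : FI k) =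
      (FractionalIdeal.dual ℤ ℚ (1 : FI k))⁻¹ :=
    coeIdeal_differentIdeal (A := ℤ) (B := 𝓞 k) ℚ k
  have h10 : (1 : FI k) ≠ 0 := one_ne_zero
  have h2 : w ∈ FractionalIdeal.dual ℤ ℚ (1 : FI k) := by
    rw [FractionalIdeal.mem_dual h10]
    intro a ha
    rw [FractionalIdeal.mem_one_iff] at ha
    obtain ⟨x, rfl⟩ := ha
    obtain ⟨n, hn⟩ := h x
    exact ⟨n, by rw [Algebra.traceForm_apply]; exact hn.symm⟩
  have h3 : ((dk k : 𝓞 k) : 𝓞 k) ∈ differentIdeal ℤ (𝓞 k) := by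
    have h4 := Ideal.absNorm_mem (differentIdeal ℤ (𝓞 k))
    rw [absNorm_differentIdeal k (𝓞 k)] at h4
    exact h4
  have h5 : algebraMap (𝓞 k) k (dk k : 𝓞 k) ∈
      ((differentIdeal ℤ (𝓞 k) : Ideal (𝓞 k)) : FI k) :=
    FractionalIdeal.mem_coeIdeal_of_mem _ h3
  rw [h1, FractionalIdeal.mem_inv_iff (FractionalIdeal.dual_ne_zero ℤ ℚ h10)] at h5
  have h6 := h5 w h2
  rw [FractionalIdeal.mem_one_iff] at h6
  obtain ⟨y, hy⟩ := h6
  refine ⟨y, ?_⟩
  have h7 : algebraMap (𝓞 k) k (dk k : 𝓞 k) = (dk k : k) := by simp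
  rw [← h7]
  exact hy

end Trace

section Basis

variable {k : Type} [Field k] [NumberField k]

/-- the pairing with the vectors `b i` -/
noncomputable def Lq (b : Pl k × Fin 2 → V2 k) : (k × k) →ₗ[ℚ] (Pl k × Fin 2 → ℚ) where
  toFun w i := Algebra.trace ℚ k (w.1 * ((b i).2 : k) - w.2 * ((b i).1 : k))
  map_add' := by
    intro v w
    funext i
    rw [Pi.add_apply, ← map_add]
    congr 1
    simp only [Prod.fst_add, Prod.snd_add]
    ring
  map_smul' := by
    intro c w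
    funext i
    rw [Pi.smul_apply, RingHom.id_apply, ← map_smul]
    congr 1
    simp only [Prod.smul_fst, Prod.smul_snd, smul_mul_assoc, smul_sub]

theorem Lq_comb (b : Pl k × Fin 2 → V2 k) (m : Pl k × Fin 2 → ℤ) (w : k × k) :
    Algebra.trace ℚ k (w.1 * ((∑ i, m i • b i).2 : k) - w.2 * ((∑ i, m i • b i).1 : k)) =
      ∑ i, (m i : ℚ) * Lq b w i := by
  have h1 : (((∑ i, m i • b i).2 : 𝓞 k) : k) = ∑ i, (m i : k) * ((b i).2 : k) := by
    rw [Prod.snd_sum]
    change algebraMap (𝓞 k) k _ = ∑ i, (m i : k) * algebraMap (𝓞 k) k (b i).2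
    rw [map_sum]
    refine Finset.sum_congr rfl fun i _ => ?_
    rw [Prod.smul_snd, zsmul_eq_mul, map_mul, map_intCast]
  have h2 : (((∑ i, m i • b i).1 : 𝓞 k) : k) = ∑ i, (m i : k) * ((b i).1 : k) := by
    rw [Prod.fst_sum]
    change algebraMap (𝓞 k) k _ = ∑ i, (m i : k) * algebraMap (𝓞 k) k (b i).1
    rw [map_sum]
    refine Finset.sum_congr rfl fun i _ => ?_
    rw [Prod.smul_fst, zsmul_eq_mul, map_mul, map_intCast]
  rw [h1, h2, Finset.mul_sum, Finset.mul_sum, ← Finset.sum_sub_distrib, map_sum]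
  refine Finset.sum_congr rfl fun i _ => ?_
  have h3 : w.1 * ((m i : k) * ((b i).2 : k)) - w.2 * ((m i : k) * ((b i).1 : k)) =
      (m i : ℚ) • (w.1 * ((b i).2 : k) - w.2 * ((b i).1 : k)) := by
    rw [Algebra.smul_def, eq_ratCast, Rat.cast_intCast]
    ring
  rw [h3, map_smul, smul_eq_mul]
  rfl

end Basis

theorem pf_DUB (hIXD : T_IXD) : T_DUB := by
  intro k _ _ _ _ M b hM hB _
  obtain ⟨hdk, hdg, hcard, -, -, hixm⟩ := hIXD k
  have hmem := hixm M hM
  refine ⟨?_, ?_⟩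
  · intro u w
    have h1 : ((Algebra.trace ℤ (𝓞 k) (det u w) : ℤ) : ℝ) =
        ((Algebra.trace ℚ k ((det u w : 𝓞 k) : k) : ℚ) : ℝ) := by
      rw [← Algebra.coe_trace_int]
      push_cast
      rfl
    rw [h1, ← sum_rv]
    refine Finset.sum_congr rfl fun v _ => ?_
    have e : ((det u w : 𝓞 k) : k) = (u.1 : k) * (w.2 : k) - (u.2 : k) * (w.1 : k) := by
      unfold det
      push_cast
      rfl
    rw [e, map_sub, map_mul, map_mul]
  -- the pairing with the vectors of `M`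
  have hpair1 : ∀ (w : k × k) (x : 𝓞 k), ∃ m : Pl k × Fin 2 → ℤ,
      Algebra.trace ℚ k (((ix M : k) * w.1) * (x : k)) = ∑ i, (m i : ℚ) * Lq b w i := by
    intro w x
    obtain ⟨m, hm⟩ := (hB _).1 (hmem (0, x))
    refine ⟨m, ?_⟩
    rw [← Lq_comb, hm]
    congr 1
    simp only [Prod.smul_fst, Prod.smul_snd, smul_eq_mul, mul_zero, map_zero, map_mul,
      map_natCast]
    ring
  have hpair2 : ∀ (w : k × k) (x : 𝓞 k), ∃ m : Pl k × Fin 2 → ℤ,
      Algebra.trace ℚ k (((ix M : k) * w.2) * (x : k)) = ∑ i, (m i : ℚ) * Lq b w i := by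
    intro w x
    obtain ⟨m, hm⟩ := (hB _).1 (hmem (-x, 0))
    refine ⟨m, ?_⟩
    rw [← Lq_comb, hm]
    congr 1
    simp only [Prod.smul_fst, Prod.smul_snd, smul_eq_mul, mul_zero, map_zero, map_mul,
      map_natCast, map_neg]
    ring
  have hixk : (ix M : k) ≠ 0 := by exact_mod_cast hM
  have hinj : Function.Injective (Lq b) := by
    rw [injective_iff_map_eq_zero]
    intro w hw
    have h1 : (ix M : k) * w.1 = 0 := by
      apply tr_zero
      intro x
      obtain ⟨m, hm⟩ := hpair1 w x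
      rw [hm, hw]
      simp
    have h2 : (ix M : k) * w.2 = 0 := by
      apply tr_zero
      intro x
      obtain ⟨m, hm⟩ := hpair2 w x
      rw [hm, hw]
      simp
    exact Prod.ext ((mul_eq_zero.1 h1).resolve_left hixk) ((mul_eq_zero.1 h2).resolve_left hixk)
  have hfr : Module.finrank ℚ (k × k) = Module.finrank ℚ (Pl k × Fin 2 → ℚ) := by
    rw [Module.finrank_prod, Module.finrank_pi, Fintype.card_prod, hcard, Fintype.card_fin]
    unfold dg
    ring
  have hsur : Function.Surjective (Lq b) :=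
    (LinearMap.injective_iff_surjective_of_finrank_eq_finrank hfr).1 hinj
  have hcoe : ∀ (u : V2 k) (i : Pl k × Fin 2),
      ((Algebra.trace ℤ (𝓞 k) (det u (b i)) : ℤ) : ℚ) = Lq b ((u.1 : k), (u.2 : k)) i := by
    intro u i
    rw [Algebra.coe_trace_int]
    have e : ((det u (b i) : 𝓞 k) : k) =
        (u.1 : k) * ((b i).2 : k) - (u.2 : k) * ((b i).1 : k) := by
      unfold det
      push_cast
      rfl
    change Algebra.trace ℚ k ((det u (b i) : 𝓞 k) : k) = _
    rw [e]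
    rfl
  intro m
  obtain ⟨w, hw⟩ := hsur (fun i => (m i : ℚ))
  obtain ⟨u1, hu1⟩ := dual_int ((ix M : k) * w.1) (by
    intro x
    obtain ⟨m', hm'⟩ := hpair1 w x
    refine ⟨∑ i, m' i * m i, ?_⟩
    rw [hm', hw]
    push_cast
    rfl)
  obtain ⟨u2, hu2⟩ := dual_int ((ix M : k) * w.2) (by
    intro x
    obtain ⟨m', hm'⟩ := hpair2 w x
    refine ⟨∑ i, m' i * m i, ?_⟩
    rw [hm', hw]
    push_cast
    rfl)
  have hu : (((u1 : 𝓞 k) : k), ((u2 : 𝓞 k) : k)) = (Dm M : ℚ) • w := by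
    unfold Dm
    refine Prod.ext ?_ ?_
    · change (u1 : k) = (((dk k * ix M : ℕ) : ℚ)) • w.1
      rw [hu1, Algebra.smul_def, eq_ratCast]
      push_cast
      ring
    · change (u2 : k) = (((dk k * ix M : ℕ) : ℚ)) • w.2
      rw [hu2, Algebra.smul_def, eq_ratCast]
      push_cast
      ring
  have htr : ∀ i, Algebra.trace ℤ (𝓞 k) (det (u1, u2) (b i)) = (Dm M : ℤ) * m i := by
    intro i
    have h1 := hcoe (u1, u2) i
    rw [hu, map_smul, hw] at h1
    have h2 : (((Dm M : ℤ) * m i : ℤ) : ℚ) = ((Dm M : ℚ) • fun i => (m i : ℚ)) i := by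
      push_cast
      rfl
    rw [← h2] at h1
    exact_mod_cast h1
  refine ⟨(u1, u2), ⟨?_, htr⟩, ?_⟩
  · intro v hv
    obtain ⟨m', rfl⟩ := (hB v).1 hv
    have h1 : Algebra.trace ℤ (𝓞 k) (det (u1, u2) (∑ i, m' i • b i)) =
        ∑ i, m' i * Algebra.trace ℤ (𝓞 k) (det (u1, u2) (b i)) := by
      have h2 : det ((u1, u2) : V2 k) (∑ i, m' i • b i) =
          ∑ i, m' i • det ((u1, u2) : V2 k) (b i) := by
        unfold det
        rw [Prod.snd_sum, Prod.fst_sum, Finset.mul_sum, Finset.mul_sum,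
          ← Finset.sum_sub_distrib]
        refine Finset.sum_congr rfl fun i _ => ?_
        rw [Prod.smul_fst, Prod.smul_snd]
        simp only [zsmul_eq_mul]
        ring
      rw [h2, map_sum]
      refine Finset.sum_congr rfl fun i _ => ?_
      rw [map_smul, smul_eq_mul]
    rw [h1]
    refine Finset.dvd_sum fun i _ => ?_
    rw [htr i]
    exact ⟨m' i * m i, by unfold Dm; ring⟩
  · rintro u ⟨-, hu'⟩
    have h1 : Lq b ((u.1 : k), (u.2 : k)) = Lq b ((u1 : k), (u2 : k)) := by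
      funext i
      have e1 := hcoe u i
      have e2 := hcoe (u1, u2) i
      rw [hu' i] at e1
      rw [htr i] at e2
      rw [← e1]
      exact e2
    have h2 := hinj h1
    have h3 : (u.1 : k) = (u1 : k) := congrArg Prod.fst h2
    have h4 : (u.2 : k) = (u2 : k) := congrArg Prod.snd h2
    exact Prod.ext (RingOfIntegers.ext h3) (RingOfIntegers.ext h4)

end Pool.Agent.H21.CM4B
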