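import Pool.Agent.H61.CM4.TargetsB

/-!
# Row B1_IXD of the board `cm4_modules`: indices of lattices
-/

set_option autoImplicit false

open MeasureTheory Set Filter NumberField NumberField.InfinitePlace NumberField.Units
  NumberField.Units.dirichletUnitTheorem Pool.Agent.H65.CM4 Pool.Agent.H25.HK Pool.Agent.H61.CM4
open scoped Real

namespace Pool.Agent.H21.CM4B

theorem ix_ne {k : Type} [Field k] [NumberField k] (M : La k) (b : ℕ) (hb : 0 < b)
    (h : ∀ u : V2 k, (b : 𝓞 k) • u ∈ M) : ix M ≠ 0 := by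
  have h1 : Module.Finite ℤ (V2 k ⧸ M.toAddSubgroup) :=
    Module.Finite.of_surjective (QuotientAddGroup.mk' M.toAddSubgroup).toIntLinearMap
      (QuotientAddGroup.mk'_surjective M.toAddSubgroup)
  have h2 : Module.IsTorsion ℤ (V2 k ⧸ M.toAddSubgroup) := by
    intro x
    obtain ⟨u, rfl⟩ := QuotientAddGroup.mk'_surjective M.toAddSubgroup x
    refine ⟨⟨(b : ℤ), mem_nonZeroDivisors_of_ne_zero (by exact_mod_cast hb.ne')⟩, ?_⟩
    change (b : ℤ) • (QuotientAddGroup.mk' M.toAddSubgroup u) = 0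
    rw [← map_zsmul]
    apply (QuotientAddGroup.eq_zero_iff _).2
    have h3 : (b : ℤ) • u = (b : 𝓞 k) • u := by
      rw [natCast_zsmul, Nat.cast_smul_eq_nsmul]
    rw [h3]
    exact h u
  have h3 := Module.finite_of_fg_torsion (V2 k ⧸ M.toAddSubgroup) h2
  exact AddSubgroup.index_ne_zero_of_finite

theorem pf_IXD : T_IXD := by
  intro k _ _ _
  have hdk : 0 < dk k := Int.natAbs_pos.2 (discr_ne_zero k)
  refine ⟨hdk, Module.finrank_pos, ?_, fun M b hb h => ix_ne M b hb h, ?_, ?_⟩
  · have h1 : nrComplexPlaces k = 0 := IsTotallyReal.nrComplexPlaces_eq_zero k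
    have h2 := card_add_two_mul_card_eq_rank k
    have h3 : Fintype.card (Pl k) = nrRealPlaces k + nrComplexPlaces k :=
      card_eq_nrRealPlaces_add_nrComplexPlaces k
    unfold dg
    omega
  · intro M hM
    refine ix_ne (du M) (dk k * ix M) (Nat.mul_pos hdk (Nat.pos_of_ne_zero hM)) fun w v _ => ?_
    have h1 : det (((dk k * ix M : ℕ) : 𝓞 k) • w) v = ((dk k * ix M : ℕ) : ℤ) • det w v := by
      simp only [det, Prod.smul_fst, Prod.smul_snd, smul_eq_mul, zsmul_eq_mul]
      push_cast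
      ring
    rw [h1, map_smul, smul_eq_mul]
    exact dvd_mul_right _ _
  · intro M _ u
    have h1 := AddSubgroup.nsmul_index_mem M.toAddSubgroup u
    have h2 : (ix M : 𝓞 k) • u = ix M • u := Nat.cast_smul_eq_nsmul _ _ _
    rw [h2]
    exact h1

end Pool.Agent.H21.CM4B
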